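import Mathlib
import Pool.Agent.TH750.Scott

/-!
# Scott sentences of finitely generated commutative rings

If a tuple `x` of a finitely generated commutative ring `A` satisfies the universal formulas true of
a generating tuple `a`, then `x` generates `A`.
-/

set_option autoImplicit false

namespace Pool.Agent.N638.SC

open FirstOrder FirstOrder.Language FirstOrder.Ring Pool.Agent.TH750.SC

/-- the conjunction of the equations `p = 0`, `p` in a list of polynomials -/
noncomputable def eqs {m : ℕ} : List (FreeCommRing (Fin m)) → Language.ring.Formula (Fin m)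
  | [] => ⊤
  | p :: l => (Term.equal (termOfFreeCommRing p) (0 : Language.ring.Term (Fin m))) ⊓ eqs l

theorem eqs_isQF {m : ℕ} (l : List (FreeCommRing (Fin m))) : BoundedFormula.IsQF (eqs l) := by
  induction l with
  | nil => exact BoundedFormula.IsQF.top
  | cons p l ih => exact (BoundedFormula.IsAtomic.equal _ _).isQF.inf ih

theorem realize_eqs {A : Type} [CommRing A] [CompatibleRing A] {m : ℕ}
    (l : List (FreeCommRing (Fin m))) (v : Fin m → A) :
    (eqs l).Realize v ↔ ∀ p ∈ l, FreeCommRing.lift v p = 0 := by
  induction l with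
  | nil => simp [eqs]
  | cons p l ih =>
    rw [eqs, Formula.realize_inf, ih, Formula.realize_equal, realize_termOfFreeCommRing,
      realize_zero]
    simp

instance {m : ℕ} : IsNoetherianRing (FreeCommRing (Fin m)) :=
  isNoetherianRing_of_ringEquiv (MvPolynomial (Fin m) ℤ)
    (freeCommRingEquivMvPolynomialInt (Fin m)).symm

/-- a surjective endomorphism of a noetherian commutative ring is injective -/
theorem injective_of_surjective {A : Type} [CommRing A] [IsNoetherianRing A] (f : A →+* A)
    (hf : Function.Surjective f) : Function.Injective f := by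
  let F : ℕ →o Submodule A A :=
    { toFun := fun n => RingHom.ker (f ^ n)
      monotone' := by
        refine monotone_nat_of_le_succ fun n x hx => ?_
        have hx' : (f ^ n) x = 0 := hx
        change (f ^ (n + 1)) x = 0
        rw [pow_succ', RingHom.mul_def, RingHom.comp_apply, hx', map_zero] }
  obtain ⟨n, hn⟩ := monotone_stabilizes_iff_noetherian.2 inferInstance F
  have hsurj : Function.Surjective (f ^ n) := by
    rw [RingHom.coe_pow]
    exact hf.iterate n
  rw [injective_iff_map_eq_zero]
  intro y hy
  obtain ⟨z, rfl⟩ := hsurj y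
  have h1 : z ∈ F (n + 1) := by
    change (f ^ (n + 1)) z = 0
    rw [pow_succ', RingHom.mul_def, RingHom.comp_apply]
    exact hy
  rw [← hn (n + 1) (Nat.le_succ n)] at h1
  exact h1

variable {A : Type} [CommRing A] [CompatibleRing A]

theorem generates {n : ℕ} (a x : Fin n → A) (ha : ∀ y : A, ∃ p, FreeCommRing.lift a p = y)
    (H : UnivLE (L := Language.ring) a x) (y : A) : ∃ p, FreeCommRing.lift x p = y := by
  classical
  have hsa : Function.Surjective (FreeCommRing.lift a) := ha
  have hN : IsNoetherianRing A := isNoetherianRing_of_surjective _ _ (FreeCommRing.lift a) hsa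
  let f : FreeCommRing (Fin (n + n)) →+* A := FreeCommRing.lift (Fin.append x a)
  obtain ⟨S, hS⟩ : (RingHom.ker f).FG := IsNoetherian.noetherian _
  -- the relations of `(x, a)` have a solution `(a, w)`
  obtain ⟨w, hw⟩ : ∃ w : Fin n → A, ∀ p ∈ S.toList, FreeCommRing.lift (Fin.append a w) p = 0 := by
    by_contra hno
    push Not at hno
    have h1 := H n (eqs S.toList).not (eqs_isQF _).not (by
      intro w
      rw [Formula.realize_not, realize_eqs]
      push Not
      exact hno w) a
    rw [Formula.realize_not, realize_eqs] at h1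
    refine h1 fun p hp => ?_
    have : p ∈ Ideal.span (S : Set (FreeCommRing (Fin (n + n)))) :=
      Ideal.subset_span (by simpa using hp)
    rw [hS] at this
    exact this
  let g : FreeCommRing (Fin (n + n)) →+* A := FreeCommRing.lift (Fin.append a w)
  have hker : RingHom.ker f ≤ RingHom.ker g := by
    rw [← hS, Ideal.span_le]
    intro p hp
    exact hw p (by simpa using hp)
  have hf1 : ∀ p : FreeCommRing (Fin n), f (FreeCommRing.map (Fin.castAdd n) p) =
      FreeCommRing.lift x p := by
    intro p
    have : f.comp (FreeCommRing.map (Fin.castAdd n)) = FreeCommRing.lift x := by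
      apply FreeCommRing.hom_ext
      intro i
      simp [f]
    exact congrArg (fun h => h p) this
  have hf2 : ∀ p : FreeCommRing (Fin n), f (FreeCommRing.map (Fin.natAdd n) p) =
      FreeCommRing.lift a p := by
    intro p
    have : f.comp (FreeCommRing.map (Fin.natAdd n)) = FreeCommRing.lift a := by
      apply FreeCommRing.hom_ext
      intro i
      rw [RingHom.comp_apply, FreeCommRing.map_of, FreeCommRing.lift_of, FreeCommRing.lift_of]
      exact Fin.append_right _ _ i
    exact congrArg (fun h => h p) this
  have hg1 : ∀ p : FreeCommRing (Fin n), g (FreeCommRing.map (Fin.castAdd n) p) =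
      FreeCommRing.lift a p := by
    intro p
    have : g.comp (FreeCommRing.map (Fin.castAdd n)) = FreeCommRing.lift a := by
      apply FreeCommRing.hom_ext
      intro i
      simp [g]
    exact congrArg (fun h => h p) this
  have hfs : Function.Surjective f := by
    intro y
    obtain ⟨p, hp⟩ := ha y
    exact ⟨_, (hf2 p).trans hp⟩
  let ρ : A →+* A := f.liftOfSurjective hfs ⟨g, hker⟩
  have hρ : ∀ q, ρ (f q) = g q := fun q => RingHom.liftOfRightInverse_comp_apply _ _ _ _ q
  have hρx : ∀ p : FreeCommRing (Fin n), ρ (FreeCommRing.lift x p) = FreeCommRing.lift a p := by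
    intro p
    rw [← hf1, hρ, hg1]
  have hρs : Function.Surjective ρ := by
    intro y
    obtain ⟨p, hp⟩ := ha y
    exact ⟨_, (hρx p).trans hp⟩
  have hρi := injective_of_surjective ρ hρs
  obtain ⟨p, hp⟩ := ha (ρ y)
  refine ⟨p, hρi ?_⟩
  rw [hρx, hp]

theorem main (h : ∃ s : Set A, s.Finite ∧ Subring.closure s = ⊤) :
    HasDSigma2Scott Language.ring A := by
  obtain ⟨s, hs, hc⟩ := h
  obtain ⟨n, a, ha⟩ : ∃ (n : ℕ) (a : Fin n → A), Set.range a = s := by
    obtain ⟨n, ⟨e⟩⟩ := finite_iff_exists_equiv_fin.1 hs.to_subtype
    refine ⟨n, fun i => (e.symm i : A), ?_⟩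
    ext y
    constructor
    · rintro ⟨i, rfl⟩
      exact (e.symm i).2
    · intro hy
      exact ⟨e ⟨y, hy⟩, by simp⟩
  have hgen : ∀ y : A, ∃ p, FreeCommRing.lift a p = y := by
    intro y
    have hy : y ∈ Subring.closure s := by rw [hc]; trivial
    have hle : Subring.closure s ≤ (FreeCommRing.lift a).range := by
      rw [Subring.closure_le, ← ha]
      rintro _ ⟨i, rfl⟩
      exact ⟨FreeCommRing.of i, FreeCommRing.lift_of _ _⟩
    exact hle hy
  have : Countable Language.ring.Symbols := Finite.to_countable
  refine hasDSigma2Scott_of_generates a ?_ ?_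
  · intro y
    obtain ⟨p, hp⟩ := hgen y
    exact ⟨termOfFreeCommRing p, by rw [realize_termOfFreeCommRing, hp]⟩
  · intro x hx y
    obtain ⟨p, hp⟩ := generates a x hgen hx y
    exact ⟨termOfFreeCommRing p, by rw [realize_termOfFreeCommRing, hp]⟩

end Pool.Agent.N638.SC
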